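import Pool.Agent.H320.LB.Base

/-!
# The Singer conjecture for linear groups: `ℓ²`-Betti numbers and one finite covering

Let `Γ` be a group which embeds in `GL_n (K)`, where `K` is a field of characteristic zero, for
instance the fundamental group of a closed aspherical manifold `M`, and let `C` be a cochain complex
of finitely generated free `ℤ[Γ]`-modules, for instance the cellular cochain complex of the
universal covering of a finite CW-complex homotopy equivalent to `M`. Let `d` be a positive common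
multiple of the orders of the finite subgroups of `GL_n (K)`, and `D = d` if `K` contains a square
root of `-1`, `D = 2 ^ ⌊n / 2⌋ d` otherwise.

1. The numbers `D b_i^(2)(Γ)` are integers.
2. Let the subgroup `N` of finite index be residually a finite `p`-group (`p` a prime), `a_j` the
Betti numbers of `N` and `W_j = ∑ (1 - p^{-v})`, the sum over the cyclic summands `ℤ/p^v` of the
`p`-primary torsion subgroup of `H^j(N; ℤ)`. If `D (a_i + W_i + W_{i+1}) < [Γ : N]` then
`b_i^(2)(Γ) = 0`: there are no harmonic `ℓ²`-cochains of degree `i`.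
3. If `b_j^(2)(Γ) = 0` for `j < i` and `D (a_i - a_{i-1} + … ± a_0 + W_{i+1}) < [Γ : N]` then
`b_i^(2)(Γ) = 0`.

So the Singer conjecture in a given degree is a finite computation (of the integral homology of one
finite covering) for fundamental groups which are linear over a field of characteristic zero.

The proof combines the bounds `[Γ : N] b_i^(2)(Γ) ≤ a_i + W_i + W_{i+1}` of the library with the
strong Atiyah conjecture for `GL_n (K)` (see `Pool.Agent.H320.CF.Asm`).
-/

set_option autoImplicit false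

open Finset Pool.Agent.Y194.VN

namespace Pool.Agent.Results.MP_f80465_gt.LinearFundamentalGroups

/-- `d` is a positive common multiple of the orders of the finite subgroups of `G`. -/
def Common (G : Type) [Group G] (d : ℕ) : Prop :=
  0 < d ∧ ∀ H : Subgroup G, Finite H → Nat.card H ∣ d

/-- The group `Γ` embeds in `GL_n (K)`, `d` is a positive common multiple of the orders of the
finite subgroups of `GL_n (K)`, and `D = d` if `K` contains a square root of `-1`; if not, then
`D = 2 ^ ⌊n / 2⌋ d`. -/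
def LinearWith (Γ : Type) [Group Γ] (D : ℕ) : Prop :=
  ∃ (K : Type) (_ : Field K) (_ : CharZero K) (n d : ℕ),
    (∃ f : Γ →* (Matrix (Fin n) (Fin n) K)ˣ, Function.Injective f) ∧
    Common (Matrix (Fin n) (Fin n) K)ˣ d ∧
    (((∃ x : K, x ^ 2 = -1) ∧ D = d) ∨ D = 2 ^ (n / 2) * d)

/-- the subgroup `N` has finite index and is residually a finite `p`-group -/
structure Admissible (p : ℕ) {Γ : Type} [Group Γ] (N : Subgroup Γ) : Prop where
  finite : N.index ≠ 0
  resid : ResP p N

/-- the cohomology of `N` up to the degree `i + 1`: `H^j(N; ℤ)` is the direct sum of `ℤ ^ (a j)`, of the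
`ℤ/p^{v j l}`, `l < m j`, and of a finite group of order prime to `p` -/
def Types {Γ : Type} [Group Γ] (C : Cx Γ) (N : Subgroup Γ) (p i : ℕ) (a m : ℕ → ℕ)
    (v : ∀ j, Fin (m j) → ℕ) : Prop :=
  ∀ j ≤ i + 1, TypeOf p (C.H N j) (a j) (v j)

/-- the weight `W_j` -/
noncomputable def weight (p : ℕ) {m : ℕ} (v : Fin m → ℕ) : ℝ := ∑ l, (1 - ((p : ℝ)⁻¹) ^ v l)

theorem quant {Γ : Type} [Group Γ] {D : ℕ} (h : LinearWith Γ D) : Pool.Agent.H320.LB.Quant Γ D := by
  obtain ⟨K, i1, i2, n, d, ⟨f, hf⟩, hd, hD⟩ := h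
  have h1 := Pool.Agent.H320.LB.quant_linear K hd.1 hd.2 f hf
  rcases hD with ⟨⟨x, hx⟩, rfl⟩ | rfl
  · rwa [Pool.Agent.H320.LB.fc_eq_one hx, one_mul] at h1
  · have h2 : Pool.Agent.H320.CF.fc K false n ∣ 2 ^ (n / 2) := by
      unfold Pool.Agent.H320.CF.fc
      split_ifs
      · exact one_dvd _
      · exact dvd_rfl
    obtain ⟨c, hc⟩ := h2
    refine ⟨Nat.mul_pos (by positivity) hd.1, fun v hv => ?_⟩
    obtain ⟨z, hz⟩ := h1.2 v hv
    refine ⟨c * z, ?_⟩
    rw [hc]
    push_cast at hz ⊢
    rw [← hz]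
    ring

theorem result {Γ : Type} [Group Γ] {D : ℕ} (hΓ : LinearWith Γ D) (C : Cx Γ) (i : ℕ) :
    (∃ z : ℤ, D * C.b2 i = z) ∧
    ∀ (p : ℕ) [Fact p.Prime] (N : Subgroup Γ), Admissible p N → ∀ (a m : ℕ → ℕ)
      (v : ∀ j, Fin (m j) → ℕ), Types C N p i a m v →
      (D * (a i + weight p (v i) + weight p (v (i + 1))) < N.index →
        harm (C.b i) (C.d i) = ⊥ ∧ C.b2 i = 0) ∧
      ((∀ j < i, C.b2 j = 0) →
        D * (∑ j ∈ range (i + 1), (-1 : ℝ) ^ (i + j) * a j + weight p (v (i + 1))) < N.index →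
        harm (C.b i) (C.d i) = ⊥ ∧ C.b2 i = 0) := by
  have hQ := quant hΓ
  have hD : (0 : ℝ) < D := by exact_mod_cast hQ.1
  refine ⟨hQ.b2 C i, fun p _ N hN a m v hT => ?_⟩
  have h0 : (0 : ℝ) < N.index := by exact_mod_cast Nat.pos_of_ne_zero hN.finite
  have key : ∀ b : ℝ, N.index * C.b2 i ≤ b → D * b < N.index →
      harm (C.b i) (C.d i) = ⊥ ∧ C.b2 i = 0 := by
    intro b hb hlt
    have h2 : (D : ℝ) * C.b2 i < 1 := by
      have h3 : (N.index : ℝ) * (D * C.b2 i) < N.index * 1 := by nlinarith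
      exact lt_of_mul_lt_mul_left h3 h0.le
    exact ⟨hQ.zero C i h2, hQ.b2_zero C i h2⟩
  refine ⟨key _ (betti_bound C hN.finite hN.resid i (hT i (Nat.le_succ i)) (hT (i + 1) le_rfl)),
    fun hz => key _ ?_⟩
  have h1 := alt_bound C hN.finite hN.resid i hT
  have h2 : ∑ j ∈ range (i + 1), (-1 : ℝ) ^ (i + j) * C.b2 j = C.b2 i := by
    rw [sum_range_succ, sum_eq_zero, zero_add, ← two_mul, pow_mul, neg_one_sq, one_pow, one_mul]
    intro j hj
    rw [hz j (mem_range.1 hj), mul_zero]
  rwa [h2] at h1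

end Pool.Agent.Results.MP_f80465_gt.LinearFundamentalGroups
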