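import Pool.Agent.H783.HN.Field

/-!
# The strict sign of the Euler characteristic: curvature operators without flat planes

Q2 asks whether `(-1)^m χ(M) > 0` for closed `2 m`-manifolds of negative sectional curvature.  We prove
the strict sign of the Gauss–Bonnet–Chern integrand, in every dimension `2 m`, for curvature tensors
`R = C + A`, where

* `A` has nonpositive curvature operator (`OpNonpos`; it may have a large kernel) and no flat plane:
  there are no linearly independent `x`, `y` with `A(x, y, ·, ·) = 0` (`FlatPlane`); for such `A` this
  says that all sectional curvatures of `A` are negative;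
* `C` is any tensor of the cone `WideCone`: finite sums of Gauss tensors of causal forms of any
  codimension (`CausalT`), pullbacks of tensors with nonpositive curvature operator of the second kind
  (`SecondPull`) and tensors with nonpositive curvature operator.

In particular (`C = 0`) the strict sign holds for nonpositive curvature operator and negative
sectional curvature (`NegativeOperator`).

* `NondegenerateForm`: a nonpositive curvature operator `A` on a space of dimension `2 m` has a flat
  plane or there is a nondegenerate two-form `ω` with `ω ⊗ ω ≤ -A` on two-vectors (`Below`).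
* `Bound`: there is a constant `c > 0` depending only on `m` with
  `(-1)^m gbc(C + A) ≥ c det ω` for all `C` in `WideCone`, all nonpositive curvature operators `A` and
  all two-forms `ω` with `ω ⊗ ω ≤ -A`.
* `Strict`, `NegativeOperator`: the strict sign.
* `Submanifolds`: the strict sign for submanifolds of any codimension of manifolds with curvature tensor
  `C + A - c` (constant curvature `-c`), `A` without flat planes tangent to the submanifold, and second
  fundamental form bounded by `|β(x,x)|² ≤ c |x|⁴`.
* `IntegralStrict`: if the curvature is in `WideCone` everywhere and of the form above on a set of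
  positive measure, then `(-1)^m` times the integral is positive.
* `IntegralBound`: if `R = C + A` and `det ω ≥ κ` everywhere, then `(-1)^m` times the integral is at
  least `c κ vol`.

Proof.  The kernel of a form of maximal rank in a linear space of two-forms is isotropic for all forms of
the space, and a degenerate two-form in even dimension has kernel of dimension at least two; this gives
`NondegenerateForm`.  For `Bound`: the integrand of `C + A` is the Gaussian mean of a polynomial in the
coefficients `τ` of the skew forms, which is nonnegative by the theorem of Heilmann–Lieb type for light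
cones and has degree at most `2 m`, with top part the determinant of the form `∑ τ_l ω_l`; the Gaussian
mean bounds the coefficients of nonnegative polynomials of bounded degree.
-/

set_option autoImplicit false

namespace Pool.Agent.Results.MP_f80465_gt.OperatorStrictSign

open MeasureTheory Pool.Agent.H783.HL Pool.Agent.H783.HM Pool.Agent.H783.HN
open Pool.Agent.W666.GB (AlgCurv gbc CurvField)
open Pool.Agent.W669.HD (unitT)

/-- A nonpositive curvature operator has a flat plane or lies above a nondegenerate two-form. -/
def NondegenerateForm : Prop :=
  ∀ (m : ℕ) (V : Type) [NormedAddCommGroup V] [InnerProductSpace ℝ V]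
    (e : OrthonormalBasis (Fin m × Bool) ℝ V) (A : V → V → V → V → ℝ), OpNonpos A →
    FlatPlane A ∨ ∃ ω, Below A ω ∧ 0 < formDet e ω

/-- The lower bound by the determinant of a two-form. -/
def Bound : Prop :=
  ∀ m : ℕ, ∃ c : ℝ, 0 < c ∧ ∀ (V : Type) [NormedAddCommGroup V] [InnerProductSpace ℝ V]
    (e : OrthonormalBasis (Fin m × Bool) ℝ V) (C A : V → V → V → V → ℝ) (ω : V → V → ℝ),
    WideCone C → OpNonpos A → Below A ω →
    c * formDet e ω ≤ (-1) ^ m * gbc e (fun x y z w => C x y z w + A x y z w)

/-- The strict sign. -/
def Strict : Prop :=
  ∀ (m : ℕ) (V : Type) [NormedAddCommGroup V] [InnerProductSpace ℝ V]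
    (e : OrthonormalBasis (Fin m × Bool) ℝ V) (C A : V → V → V → V → ℝ),
    WideCone C → OpNonpos A → ¬ FlatPlane A →
    0 < (-1) ^ m * gbc e (fun x y z w => C x y z w + A x y z w)

/-- The strict sign for nonpositive curvature operator and negative sectional curvature. -/
def NegativeOperator : Prop :=
  ∀ (m : ℕ) (V : Type) [NormedAddCommGroup V] [InnerProductSpace ℝ V]
    (e : OrthonormalBasis (Fin m × Bool) ℝ V) (R : V → V → V → V → ℝ), OpNonpos R →
    (∀ x y : V, LinearIndependent ℝ ![x, y] → R x y x y < 0) → 0 < (-1) ^ m * gbc e R

/-- Submanifolds of any codimension: `V` is the tangent space of the ambient manifold, with curvature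
tensor `C + A - c`, `E` is the tangent space of the submanifold, `W` its normal space and `β` its second
fundamental form; the curvature tensor of the submanifold is given by the Gauss equation. -/
def Submanifolds : Prop :=
  ∀ (m : ℕ) (V W : Type) [NormedAddCommGroup V] [InnerProductSpace ℝ V]
    [NormedAddCommGroup W] [InnerProductSpace ℝ W] [FiniteDimensional ℝ W] (E : Submodule ℝ V)
    (e : OrthonormalBasis (Fin m × Bool) ℝ E) (C A : V → V → V → V → ℝ) (β : E → E → W) (c : ℝ),
    0 ≤ c → WideCone C → OpNonpos A → ¬ FlatPlane (fun x y z w : E => A x y z w) → SecondFF β →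
    (∀ x, ‖β x x‖ ^ 2 ≤ c * ‖x‖ ^ 4) →
    0 < (-1) ^ m * gbc e (fun x y z w : E => C x y z w + A x y z w - c * unitT (x : V) y z w +
      inner ℝ (β x z) (β y w) - inner ℝ (β x w) (β y z))

/-- The integrated strict sign. -/
def IntegralStrict : Prop :=
  ∀ (m : ℕ) (M : Type) [MeasurableSpace M] (μ : Measure M) (K : CurvField m M),
    Integrable K.gb μ → (∀ p, WideCone (K.R p)) → μ {p | StrictAt (K.R p)} ≠ 0 →
    0 < (-1) ^ m * ∫ p, K.gb p ∂μ

/-- The integrated lower bound. -/
def IntegralBound : Prop :=
  ∀ m : ℕ, ∃ c : ℝ, 0 < c ∧ ∀ (M : Type) [MeasurableSpace M] (μ : Measure M) [IsFiniteMeasure μ]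
    (K : CurvField m M) (κ : ℝ), Integrable K.gb μ →
    (∀ p, ∃ (C A : K.V p → K.V p → K.V p → K.V p → ℝ) (ω : K.V p → K.V p → ℝ),
      WideCone C ∧ OpNonpos A ∧ Below A ω ∧ κ ≤ formDet (K.e p) ω ∧
      ∀ x y z w, K.R p x y z w = C x y z w + A x y z w) →
    c * κ * μ.real Set.univ ≤ (-1) ^ m * ∫ p, K.gb p ∂μ

/-- See the text at the head of the file. -/
theorem result : NondegenerateForm ∧ Bound ∧ Strict ∧ NegativeOperator ∧ Submanifolds ∧
    IntegralStrict ∧ IntegralBound :=
  ⟨fun _ _ _ _ e _ hA => exists_below e hA, quantitative,
    fun _ _ _ _ e _ _ hC hA hf => strict_sign e hC hA hf,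
    fun _ _ _ _ e _ hR hs => negative_operator e hR hs,
    fun _ _ _ _ _ _ _ _ E e _ _ _ _ hc hC hA hf hs hβ =>
      submanifold_strict E e hc hC hA hf hs hβ,
    fun _ _ _ μ K hi hK hμ => integral_strict μ K hi hK hμ, integral_bound⟩

end Pool.Agent.Results.MP_f80465_gt.OperatorStrictSign
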